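import Pool.Agent.N977.P.Stm

/-!
Smoothing estimate for weighted sums of Fourier coefficients, with packets (part of the project
NSP of helper977).
-/

open Set Filter Topology

namespace Pool.Agent.N930.NSP

open H459R3.NS Pool.Agent.N977.Q Pool.Agent.N977.S Pool.Agent.N977.P
open Pool.Agent.N977.K (cmp)

/-- the smoothing estimate; a part of the dissipation is kept -/
theorem zstep2 {ι : Type*} (F : Finset ι) {w lam L : ι → ℝ} {b Fk : ι → ℝ → ℝ} {D D' : ℝ → ℝ}
    {s t C : ℝ} (hst : s ≤ t) (hw : ∀ k, 0 ≤ w k) (hL : ∀ k, 0 ≤ L k)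
    (hl : ∀ k ∈ F, L k ≤ lam k) (hb : ∀ k r, 0 ≤ b k r)
    (hbc : ∀ k, ContinuousOn (fun r => b k r ^ 2) (Icc s t))
    (hd : ∀ k ∈ F, ∀ r ∈ Ioo s t, ∃ B, |B| ≤ b k r * Fk k r ∧
      HasDerivAt (fun r => b k r ^ 2) (-(2 * lam k) * b k r ^ 2 + 2 * B) r)
    (hF0 : ∀ k ∈ F, ∀ r ∈ Ioo s t, 0 ≤ Fk k r)
    (hDc : ContinuousOn D (Icc s t)) (hDd : ∀ r ∈ Ioo s t, HasDerivAt D (D' r) r)
    (hF : ∀ r ∈ Ioo s t, ∑ k ∈ F, w k * (Real.exp (-(L k * (t - r)))
      * (Fk k r - (lam k - L k) * b k r)) ≤ C / √(t - r) + D' r) :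
    ∑ k ∈ F, w k * b k t ≤ ∑ k ∈ F, w k * b k s + 2 * C * √(t - s) + (D t - D s) := by
  set Λ := ∑ k ∈ F, w k * lam k with hΛ
  have key : ∀ η : ℝ, 0 < η → ∑ k ∈ F, w k * b k t ≤ ∑ k ∈ F, w k * b k s + 2 * C * √(t - s)
      + (D t - D s) + η * (∑ k ∈ F, w k + Λ * (t - s)) := by
    intro η hη
    have hpos : ∀ k r, 0 < b k r ^ 2 + η ^ 2 := fun k r => by positivity
    -- choose the derivatives
    choose! B hB1 hB2 using hd
    have hcmp := cmp (f := fun r => ∑ k ∈ F, w k * (Real.exp (-(L k * (t - r)))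
        * √(b k r ^ 2 + η ^ 2)))
      (f' := fun r => ∑ k ∈ F, w k * (Real.exp (-(L k * (t - r))) * L k * √(b k r ^ 2 + η ^ 2)
        + Real.exp (-(L k * (t - r))) * ((-(2 * lam k) * b k r ^ 2 + 2 * B k r)
          / (2 * √(b k r ^ 2 + η ^ 2)))))
      (g := fun r => η * Λ * r - 2 * C * √(t - r) + D r)
      (g' := fun r => η * Λ - 2 * C * (-1 / (2 * √(t - r))) + D' r) hst
      (continuousOn_finsetSum _ fun k _ => continuousOn_const.mul
        ((Real.continuous_exp.comp (by fun_prop)).continuousOn.mul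
          (((hbc k).add continuousOn_const).sqrt)))
      (ContinuousOn.add (by fun_prop) hDc)
      (fun r hr => HasDerivAt.fun_sum fun k hk => by
        have h1 : HasDerivAt (fun r => Real.exp (-(L k * (t - r))))
            (Real.exp (-(L k * (t - r))) * L k) r := by
          have := (((hasDerivAt_id r).const_sub t).const_mul (L k)).neg.exp
          refine this.congr_deriv ?_
          simp
        exact (h1.mul (((hB2 k hk r hr).add_const (η ^ 2)).sqrt (hpos k r).ne')).const_mul (w k))
      (fun r hr => by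
        have h0 : t - r ≠ 0 := by have := hr.2; intro h; linarith
        have h1 := ((hasDerivAt_id r).const_sub t).sqrt h0
        have h2 := (((hasDerivAt_id r).const_mul (η * Λ)).sub (h1.const_mul (2 * C))).add (hDd r hr)
        refine h2.congr_deriv ?_
        simp)
      (fun r hr => by
        have hr0 : 0 < t - r := by linarith [hr.2]
        have h1 := hF r hr
        have h2 : ∀ k ∈ F, w k * (Real.exp (-(L k * (t - r))) * L k * √(b k r ^ 2 + η ^ 2)
            + Real.exp (-(L k * (t - r))) * ((-(2 * lam k) * b k r ^ 2 + 2 * B k r)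
              / (2 * √(b k r ^ 2 + η ^ 2))))
            ≤ η * (w k * lam k) + w k * (Real.exp (-(L k * (t - r)))
              * (Fk k r - (lam k - L k) * b k r)) := by
          intro k hk
          have a0 : 0 < √(b k r ^ 2 + η ^ 2) := Real.sqrt_pos.2 (hpos k r)
          have a1 : √(b k r ^ 2 + η ^ 2) ^ 2 = b k r ^ 2 + η ^ 2 := Real.sq_sqrt (hpos k r).le
          have a2 : b k r ≤ √(b k r ^ 2 + η ^ 2) := by
            apply Real.le_sqrt_of_sq_le; linarith [sq_nonneg η]
          have a3 : η ≤ √(b k r ^ 2 + η ^ 2) := by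
            apply Real.le_sqrt_of_sq_le; linarith [sq_nonneg (b k r)]
          have a3' : √(b k r ^ 2 + η ^ 2) ≤ b k r + η := by
            apply Real.sqrt_le_iff.2
            have := hb k r
            exact ⟨by positivity, by nlinarith [mul_nonneg (hb k r) hη.le]⟩
          have a4 := hB1 k hk r hr
          have a5 := hF0 k hk r hr
          have al := hl k hk
          have hbk := hb k r
          have hLk := hL k
          set ρ := √(b k r ^ 2 + η ^ 2) with hρ
          have a6 : L k * ρ + (-(2 * lam k) * b k r ^ 2 + 2 * B k r) / (2 * ρ)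
              ≤ η * lam k + (Fk k r - (lam k - L k) * b k r) := by
            have : L k * ρ + (-(2 * lam k) * b k r ^ 2 + 2 * B k r) / (2 * ρ)
                = (L k * η ^ 2 - (lam k - L k) * b k r ^ 2 + B k r) / ρ := by
              field_simp
              rw [a1]; ring
            rw [this, div_le_iff₀ a0]
            have b1 : L k * η ^ 2 ≤ L k * (η * ρ) := by
              apply mul_le_mul_of_nonneg_left _ (hL k)
              rw [sq]; exact mul_le_mul_of_nonneg_left a3 hη.le
            have b2 : B k r ≤ Fk k r * ρ := by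
              have := le_abs_self (B k r)
              have := mul_le_mul_of_nonneg_right a2 a5
              linarith
            have b3 : (lam k - L k) * ((b k r - η) * ρ) ≤ (lam k - L k) * b k r ^ 2 := by
              apply mul_le_mul_of_nonneg_left _ (sub_nonneg.2 al)
              by_cases hc : b k r ≤ η
              · have : (b k r - η) * ρ ≤ 0 :=
                  mul_nonpos_of_nonpos_of_nonneg (sub_nonpos.2 hc) a0.le
                linarith [sq_nonneg (b k r)]
              · push Not at hc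
                have := mul_le_mul_of_nonneg_left a3' (sub_nonneg.2 hc.le)
                nlinarith
            have e : (η * lam k + (Fk k r - (lam k - L k) * b k r)) * ρ
                = L k * (η * ρ) + Fk k r * ρ - (lam k - L k) * ((b k r - η) * ρ) := by ring
            rw [e]
            linarith
          have a7 : Real.exp (-(L k * (t - r))) ≤ 1 := by
            rw [Real.exp_le_one_iff]
            have := mul_nonneg (hL k) hr0.le
            linarith
          have a8 := (Real.exp_pos (-(L k * (t - r)))).le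
          have a9 := mul_le_mul_of_nonneg_left a6 a8
          have a10 : Real.exp (-(L k * (t - r))) * (η * lam k) ≤ η * lam k :=
            mul_le_of_le_one_left (mul_nonneg hη.le (hLk.trans al)) a7
          have a11 : Real.exp (-(L k * (t - r))) * L k * ρ
              + Real.exp (-(L k * (t - r))) * ((-(2 * lam k) * b k r ^ 2 + 2 * B k r) / (2 * ρ))
              ≤ η * lam k + Real.exp (-(L k * (t - r))) * (Fk k r - (lam k - L k) * b k r) := by
            have e1 : Real.exp (-(L k * (t - r))) * L k * ρ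
              + Real.exp (-(L k * (t - r))) * ((-(2 * lam k) * b k r ^ 2 + 2 * B k r) / (2 * ρ))
              = Real.exp (-(L k * (t - r))) * (L k * ρ
                + (-(2 * lam k) * b k r ^ 2 + 2 * B k r) / (2 * ρ)) := by ring
            rw [e1]
            linarith
          have a12 := mul_le_mul_of_nonneg_left a11 (hw k)
          linarith
        refine (Finset.sum_le_sum h2).trans ?_
        rw [Finset.sum_add_distrib, ← Finset.mul_sum]
        have h3 : 2 * C * (-1 / (2 * √(t - r))) = -(C / √(t - r)) := by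
          have : √(t - r) ≠ 0 := (Real.sqrt_pos.2 hr0).ne'
          field_simp
        rw [h3]
        linarith)
    simp only [sub_self, mul_zero, neg_zero, Real.exp_zero, one_mul, Real.sqrt_zero, sub_zero]
      at hcmp
    have e1 : ∑ k ∈ F, w k * b k t ≤ ∑ k ∈ F, w k * √(b k t ^ 2 + η ^ 2) :=
      Finset.sum_le_sum fun k _ => mul_le_mul_of_nonneg_left
        (Real.le_sqrt_of_sq_le (by linarith [sq_nonneg η])) (hw k)
    have e2 : ∑ k ∈ F, w k * (Real.exp (-(L k * (t - s))) * √(b k s ^ 2 + η ^ 2))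
        ≤ ∑ k ∈ F, w k * b k s + η * ∑ k ∈ F, w k := by
      rw [Finset.mul_sum, ← Finset.sum_add_distrib]
      refine Finset.sum_le_sum fun k _ => ?_
      have a1 : √(b k s ^ 2 + η ^ 2) ≤ b k s + η := by
        apply Real.sqrt_le_iff.2
        have := hb k s
        exact ⟨by positivity, by nlinarith [mul_nonneg (hb k s) hη.le]⟩
      have a2 : Real.exp (-(L k * (t - s))) ≤ 1 := by
        rw [Real.exp_le_one_iff]
        have := mul_nonneg (hL k) (sub_nonneg.2 hst)
        linarith
      have a3 : Real.exp (-(L k * (t - s))) * √(b k s ^ 2 + η ^ 2) ≤ b k s + η :=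
        (mul_le_of_le_one_left (Real.sqrt_nonneg _) a2).trans a1
      have a4 := mul_le_mul_of_nonneg_left a3 (hw k)
      linarith
    linarith
  by_contra hcon
  push Not at hcon
  set D₀ := ∑ k ∈ F, w k + Λ * (t - s) with hD
  have hΛ0 : 0 ≤ Λ := Finset.sum_nonneg fun k hk => mul_nonneg (hw k) ((hL k).trans (hl k hk))
  have hD0 : 0 ≤ D₀ := add_nonneg (Finset.sum_nonneg fun k _ => hw k)
    (mul_nonneg hΛ0 (sub_nonneg.2 hst))
  set g := ∑ k ∈ F, w k * b k t - (∑ k ∈ F, w k * b k s + 2 * C * √(t - s) + (D t - D s)) with hg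
  have hg0 : 0 < g := by linarith
  have h1 := key (g / (2 * (D₀ + 1))) (by positivity)
  have h2 : g / (2 * (D₀ + 1)) * D₀ ≤ g / 2 := by
    rw [div_mul_eq_mul_div, div_le_iff₀ (by positivity)]
    nlinarith
  linarith

/-! ### One packet -/

/-- the estimate for one packet -/
theorem pkt {P : Finset K3} {g w v b : K3 → ℝ} {c M J W x X ρ : ℝ} (hc : 0 < c) (hM : 0 < M)
    (hJ : 1 ≤ J) (hJM : 1000 * (J - 1) ≤ M) (h1 : ∑ k ∈ P, |g k| ≤ 3 * J)
    (h2 : ∀ k, |g k| ≤ 2 / J) (hw0 : ∀ k, 0 ≤ w k) (hw : ∀ k ∈ P, ∀ l ∈ P, w k ≤ 2 * w l)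
    (hW : ∀ k ∈ P, w k ≤ W) (hW0 : 0 ≤ W)
    (hl : ∀ k ∈ P, 39 / 10 * M ^ 2 ≤ len k ^ 2 ∧ len k ^ 2 ≤ 9 * M ^ 2)
    (hv : ∀ k, 0 ≤ v k) (hb : ∀ k, 0 ≤ b k) (hx : |x| ≤ X)
    (hρ : ρ ≤ ∑ l ∈ P, |g l| * (7 * (c * (M * (J - 1))) * b l + 7 * len l * v l)) :
    ∑ k ∈ P, w k * (7 * len k * v k + |g k| * (14 * (c * (M * (J - 1))) * |x| + ρ)
      - (c * len k ^ 2 - c * M ^ 2) * b k)
      ≤ 273 * M * ∑ k ∈ P, w k * v k + 42 * W * (c * (M * (J * (J - 1)) * X)) := by
  have hJ0 : 0 < J := by linarith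
  have hJ1 : 0 ≤ J - 1 := by linarith
  have hX0 : 0 ≤ X := (abs_nonneg x).trans hx
  have hcM : 0 ≤ c * (M * (J - 1)) := by positivity
  have hcM' : c * (M * (J - 1)) ≤ c * M ^ 2 / 1000 := by
    have : M * (J - 1) ≤ M ^ 2 / 1000 := by nlinarith
    have := mul_le_mul_of_nonneg_left this hc.le
    linarith
  have hlen : ∀ k ∈ P, len k ≤ 3 * M := fun k hk => by
    have := (hl k hk).2
    have h0 := len_nonneg k
    nlinarith
  -- the terms with `x`
  have t1 : ∑ k ∈ P, w k * (|g k| * (14 * (c * (M * (J - 1))) * |x|))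
      ≤ 42 * W * (c * (M * (J * (J - 1)) * X)) := by
    calc ∑ k ∈ P, w k * (|g k| * (14 * (c * (M * (J - 1))) * |x|))
        ≤ ∑ k ∈ P, W * (|g k| * (14 * (c * (M * (J - 1))) * X)) :=
          Finset.sum_le_sum fun k hk => mul_le_mul (hW k hk)
            (mul_le_mul_of_nonneg_left (mul_le_mul_of_nonneg_left hx (by positivity))
              (abs_nonneg _)) (by positivity) hW0
      _ = (W * (14 * (c * (M * (J - 1))) * X)) * ∑ k ∈ P, |g k| := by
          rw [Finset.mul_sum]; exact Finset.sum_congr rfl fun k _ => by ring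
      _ ≤ (W * (14 * (c * (M * (J - 1))) * X)) * (3 * J) :=
          mul_le_mul_of_nonneg_left h1 (by positivity)
      _ = _ := by ring
  -- the terms with `ρ`
  have t2 : ∀ l ∈ P, (∑ k ∈ P, w k * |g k|) * |g l| ≤ 12 * w l := by
    intro l hl'
    have e1 : ∑ k ∈ P, w k * |g k| ≤ 2 * w l * (3 * J) := by
      calc ∑ k ∈ P, w k * |g k| ≤ ∑ k ∈ P, 2 * w l * |g k| :=
            Finset.sum_le_sum fun k hk => mul_le_mul_of_nonneg_right (hw k hk l hl') (abs_nonneg _)
        _ = 2 * w l * ∑ k ∈ P, |g k| := by rw [Finset.mul_sum]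
        _ ≤ _ := mul_le_mul_of_nonneg_left h1 (by have := hw0 l; positivity)
    calc (∑ k ∈ P, w k * |g k|) * |g l| ≤ (2 * w l * (3 * J)) * (2 / J) :=
          mul_le_mul e1 (h2 l) (abs_nonneg _) (by have := hw0 l; positivity)
      _ = 12 * w l := by field_simp; ring
  have hS0 : 0 ≤ ∑ k ∈ P, w k * |g k| :=
    Finset.sum_nonneg fun k _ => mul_nonneg (hw0 k) (abs_nonneg _)
  have t3 : ∑ k ∈ P, w k * (|g k| * ρ)
      ≤ ∑ l ∈ P, 12 * w l * (7 * (c * M ^ 2 / 1000) * b l + 7 * len l * v l) := by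
    calc ∑ k ∈ P, w k * (|g k| * ρ) = (∑ k ∈ P, w k * |g k|) * ρ := by
          rw [Finset.sum_mul]; exact Finset.sum_congr rfl fun k _ => by ring
      _ ≤ (∑ k ∈ P, w k * |g k|)
          * ∑ l ∈ P, |g l| * (7 * (c * (M * (J - 1))) * b l + 7 * len l * v l) :=
          mul_le_mul_of_nonneg_left hρ hS0
      _ = ∑ l ∈ P, ((∑ k ∈ P, w k * |g k|) * |g l|)
          * (7 * (c * (M * (J - 1))) * b l + 7 * len l * v l) := by
          rw [Finset.mul_sum]; exact Finset.sum_congr rfl fun k _ => by ring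
      _ ≤ _ := Finset.sum_le_sum fun l hl' => by
          have e1 := hb l
          have e2 := hv l
          have e3 := len_nonneg l
          have e4 := hw0 l
          refine mul_le_mul (t2 l hl') ?_ (by positivity) (by positivity)
          have := mul_le_mul_of_nonneg_right hcM' e1
          linarith
  have t4 : ∀ k ∈ P, w k * (7 * len k * v k - (c * len k ^ 2 - c * M ^ 2) * b k)
      + 12 * w k * (7 * (c * M ^ 2 / 1000) * b k + 7 * len k * v k) ≤ 273 * M * (w k * v k) := by
    intro k hk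
    have e1 := hb k
    have e2 := hv k
    have e3 := len_nonneg k
    have e4 := hw0 k
    obtain ⟨e5, _⟩ := hl k hk
    have e6 := hlen k hk
    have e7 : c * (39 / 10 * M ^ 2) ≤ c * len k ^ 2 := mul_le_mul_of_nonneg_left e5 hc.le
    have e8 : (c * (39 / 10 * M ^ 2)) * b k ≤ (c * len k ^ 2) * b k :=
      mul_le_mul_of_nonneg_right e7 e1
    have e9 : 0 ≤ c * M ^ 2 * b k := by positivity
    have e10 : len k * v k ≤ 3 * M * v k := mul_le_mul_of_nonneg_right e6 e2
    have e11 : (7 * len k * v k - (c * len k ^ 2 - c * M ^ 2) * b k)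
        + 12 * (7 * (c * M ^ 2 / 1000) * b k + 7 * len k * v k) ≤ 273 * M * v k := by
      nlinarith
    have e12 := mul_le_mul_of_nonneg_left e11 e4
    linarith
  have t5 := Finset.sum_le_sum t4
  rw [Finset.sum_add_distrib, ← Finset.mul_sum] at t5
  have t6 : ∑ k ∈ P, w k * (7 * len k * v k + |g k| * (14 * (c * (M * (J - 1))) * |x| + ρ)
      - (c * len k ^ 2 - c * M ^ 2) * b k)
      = ∑ k ∈ P, w k * (7 * len k * v k - (c * len k ^ 2 - c * M ^ 2) * b k)
        + (∑ k ∈ P, w k * (|g k| * (14 * (c * (M * (J - 1))) * |x|))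
          + ∑ k ∈ P, w k * (|g k| * ρ)) := by
    rw [← Finset.sum_add_distrib, ← Finset.sum_add_distrib]
    exact Finset.sum_congr rfl fun k _ => by ring
  rw [t6]
  linarith

end Pool.Agent.N930.NSP
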