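import Pool.Agent.N930.NSP.Zs

/-!
The smoothing estimate for the system with packets (part of the project NSP of helper977).
-/

open Set Filter Topology

namespace Pool.Agent.N930.NSP

open H459R3.NS Pool.Agent.N977.Q Pool.Agent.N977.S Pool.Agent.N977.P
open Pool.Agent.N977.K (cmp)

variable {J : ℕ → ℕ} {G : Fin 2 → ℕ → K3 → ℝ}

theorem qq_len (e : Fin 2) (n : ℕ) :
    4 * (Mn 8 n : ℝ) ^ 2 ≤ len (qq e n) ^ 2 ∧ len (qq e n) ^ 2 ≤ 5 * (Mn 8 n : ℝ) ^ 2 := by
  obtain ⟨h0, h2⟩ := len_ev_sq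
  unfold qq
  rw [len_smul, mul_pow]
  have hM := sq_nonneg (Mn 8 n : ℝ)
  fin_cases e
  · have : len (dv 0) ^ 2 = 4 := h0
    simp only [Fin.zero_eta]
    rw [this]
    constructor <;> linarith
  · have : len (dv 1) ^ 2 = 5 := h2
    simp only [Fin.mk_one]
    rw [this]
    constructor <;> linarith

theorem Mn8 (n : ℕ) : (0 : ℝ) < Mn 8 n := by exact_mod_cast Mn_pos (by norm_num : 0 < 8) n

theorem pk_len (hP : Pk J G) {e : Fin 2} {n : ℕ} {k : K3} (hk : G e n k ≠ 0) :
    39 / 10 * (Mn 8 n : ℝ) ^ 2 ≤ len k ^ 2 ∧ len k ^ 2 ≤ 9 * (Mn 8 n : ℝ) ^ 2 := by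
  obtain ⟨q1, q2⟩ := qq_len e n
  have h1 := abs_le.1 (hP.near e n k hk)
  have h2 := hP.J2 n
  have hM := Mn8 n
  have h3 : (Mn 8 n : ℝ) * ((J n : ℝ) - 1) ≤ Mn 8 n ^ 2 / 1000 := by nlinarith
  have h4 : (0 : ℝ) < (Mn 8 n : ℝ) ^ 2 := by positivity
  constructor <;> linarith [h1.1, h1.2]

theorem pk_cmp (hP : Pk J G) {e : Fin 2} {n : ℕ} {k l : K3} (hk : G e n k ≠ 0)
    (hl : G e n l ≠ 0) : len k ≤ 101 / 100 * len l := by
  obtain ⟨q1, q2⟩ := qq_len e n
  have h1 := abs_le.1 (hP.near e n k hk)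
  have h1' := abs_le.1 (hP.near e n l hl)
  have h2 := hP.J2 n
  have hM := Mn8 n
  have h3 : (Mn 8 n : ℝ) * ((J n : ℝ) - 1) ≤ Mn 8 n ^ 2 / 1000 := by nlinarith
  have h4 : (0 : ℝ) < (Mn 8 n : ℝ) ^ 2 := by positivity
  have h5 : len k ^ 2 ≤ (101 / 100 * len l) ^ 2 := by
    rw [mul_pow]
    nlinarith [h1.1, h1.2, h1'.1, h1'.2]
  have h6 := len_nonneg l
  exact le_of_sq_le_sq h5 (by positivity)

theorem gw_cmp (hP : Pk J G) {M : ℝ} (hM : 0 < M) {e : Fin 2} {n : ℕ} {k l : K3}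
    (hk : G e n k ≠ 0) (hl : G e n l ≠ 0) : gw M k ≤ 2 * gw M l := by
  have h1 := pk_cmp hP hk hl
  have h2 : max 1 (len k / M) ≤ 101 / 100 * max 1 (len l / M) := by
    have e1 : (1 : ℝ) ≤ max 1 (len l / M) := le_max_left _ _
    have e2 : len l / M ≤ max 1 (len l / M) := le_max_right _ _
    apply max_le
    · linarith
    · rw [div_le_iff₀ hM]
      rw [div_le_iff₀ hM] at e2
      linarith
  unfold gw
  have h3 : (0 : ℝ) ≤ max 1 (len l / M) ^ 3 := by positivity
  calc max 1 (len k / M) ^ 3 ≤ (101 / 100 * max 1 (len l / M)) ^ 3 :=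
        pow_le_pow_left₀ (by positivity) h2 3
    _ = (101 / 100) ^ 3 * max 1 (len l / M) ^ 3 := mul_pow _ _ _
    _ ≤ 2 * max 1 (len l / M) ^ 3 := mul_le_mul_of_nonneg_right (by norm_num) h3

theorem gw_pk_le (hP : Pk J G) {e : Fin 2} {m : ℕ} {k : K3} (hk : G e m k ≠ 0) (n : ℕ) :
    gw (Mn 8 n) k ≤ 27 * 8 ^ (m - n) := by
  have hM := Mn8 n
  have h0 := len_nonneg k
  have h1 : len k ≤ 3 * Mn 8 m := by
    have := (pk_len hP hk).2
    have h2 := Mn8 m
    nlinarith
  have h2 : (Mn 8 m : ℝ) ≤ Mn 8 n * 2 ^ (m - n) := by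
    unfold Mn; push_cast
    rw [mul_assoc, ← pow_add]
    apply mul_le_mul_of_nonneg_left _ (by norm_num)
    exact pow_le_pow_right₀ (by norm_num) (by omega)
  have h3 : len k / Mn 8 n ≤ 3 * 2 ^ (m - n) := by
    rw [div_le_iff₀ hM]
    linarith
  have h4 : (1 : ℝ) ≤ 3 * 2 ^ (m - n) := by
    have : (1 : ℝ) ≤ 2 ^ (m - n) := one_le_pow₀ (by norm_num)
    linarith
  unfold gw
  calc _ ≤ (3 * 2 ^ (m - n) : ℝ) ^ 3 := pow_le_pow_left₀ (by positivity) (max_le h4 h3) 3
    _ = 27 * 8 ^ (m - n) := by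
        rw [mul_pow, ← pow_mul, mul_comm (m - n) 3, pow_mul]; norm_num

variable {T c E : ℝ} {d D α μ : ℕ → ℝ} {x f : Fin 2 → ℕ → ℝ → ℝ} {a b : K3 → ℝ → ℝ}

theorem rho_nonneg (hP : Pk J G) (hc : 0 < c) {a b : K3 → ℝ} (ha : ∀ k, 0 ≤ a k)
    (hb : ∀ k, 0 ≤ b k) (e : Fin 2) (n : ℕ) : 0 ≤ rho c J G a b e n := by
  refine tsum_nonneg fun l => mul_nonneg (abs_nonneg _) ?_
  have h1 : (0 : ℝ) ≤ (J n : ℝ) - 1 := by
    have := hP.J1 n
    have : (1 : ℝ) ≤ J n := by exact_mod_cast this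
    linarith
  have h2 := hb l
  have h3 := len_nonneg l
  have h4 := cv_nonneg ha ha l
  have h5 := Mn8 n
  positivity

theorem rho_eq (hP : Pk J G) {a b : K3 → ℝ} (e : Fin 2) (n : ℕ) : rho c J G a b e n
    = ∑ l ∈ (hP.fin e n).toFinset, |G e n l| * (7 * (c * (Mn 8 n * ((J n : ℝ) - 1))) * b l
      + 7 * len l * cv a a l) := by
  unfold rho
  refine tsum_eq_sum fun l hl => ?_
  have : G e n l = 0 := by
    by_contra h
    exact hl ((hP.fin e n).mem_toFinset.2 h)
  rw [this, abs_zero, zero_mul]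

theorem l1_sum (hP : Pk J G) (e : Fin 2) (n : ℕ) :
    ∑ k ∈ (hP.fin e n).toFinset, |G e n k| ≤ 3 * J n := by
  refine le_trans (le_of_eq ?_) (hP.l1 e n)
  refine (tsum_eq_sum fun l hl => ?_).symm
  have : G e n l = 0 := by
    by_contra h
    exact hl ((hP.fin e n).mem_toFinset.2 h)
  rw [this, abs_zero]

/-- S_ZST -/
theorem zst : S_ZST := by
  classical
  intro hDES T c E J G d D α μ x f a b hP h n tn ts Γ X h0 hts hT hΓ hX hX0 hsX
  obtain ⟨hs, -, -, -⟩ := hDES T c E J G d D α μ x f a b hP h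
  have hc := h.c0
  set M₀ : ℝ := (Mn 8 n : ℝ) with hM₀
  have hM : 1 ≤ M₀ := one_le_Mn (by norm_num) n
  have hM0 : 0 < M₀ := by linarith
  have hsub : Icc tn ts ⊆ Icc 0 T := Icc_subset_Icc h0 hT
  have hsub' : Ioo tn ts ⊆ Ioo 0 T := Ioo_subset_Ioo h0 hT
  have htn : tn ∈ Icc 0 T := hsub ⟨le_rfl, hts⟩
  have hts' : ts ∈ Icc 0 T := hsub ⟨hts, le_rfl⟩
  have hsc : 0 < √c := Real.sqrt_pos.2 hc
  have hJ1 : ∀ m, (1 : ℝ) ≤ J m := fun m => by exact_mod_cast hP.J1 m
  set Aₘ : ℕ → ℝ := fun m => 8 ^ (m - n) * (J m * ((J m : ℝ) - 1) / Mn 8 m * X m) with hA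
  have hA0 : ∀ m, 0 ≤ Aₘ m := fun m => by
    have h1 := hJ1 m
    have h2 := Mn8 m
    have h3 := hX0 m
    have h4 : (0 : ℝ) ≤ (J m : ℝ) - 1 := by linarith
    simp only [hA]
    positivity
  -- the packet of a frequency
  have hφ0 : ∀ k, ∃ q : Fin 2 × ℕ, (∃ e m, G e m k ≠ 0) → G q.1 q.2 k ≠ 0 := by
    intro k
    by_cases hk : ∃ e m, G e m k ≠ 0
    · obtain ⟨e, m, hk⟩ := hk
      exact ⟨(e, m), fun _ => hk⟩
    · exact ⟨(0, 0), fun h => absurd h hk⟩
  choose φ hφ using hφ0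
  have hφ' : ∀ (q : Fin 2 × ℕ) k, G q.1 q.2 k ≠ 0 → φ k = q := by
    intro q k hk
    obtain ⟨h1, h2⟩ := hP.disj _ _ _ _ k (hφ k ⟨q.1, q.2, hk⟩) hk
    exact Prod.ext h1 h2
  have key : ∀ S : Finset K3, ∑ k ∈ S, gw M₀ k * b k ts
      ≤ GG b M₀ tn + 10 ^ 4 * Γ ^ 2 * √((ts - tn) / c) + 10 ^ 4 * ∑' m, Aₘ m := by
    intro S
    set P : Fin 2 × ℕ → Finset K3 := fun q => (hP.fin q.1 q.2).toFinset with hPd
    have memP : ∀ q k, k ∈ P q ↔ G q.1 q.2 k ≠ 0 := fun q k => (hP.fin q.1 q.2).mem_toFinset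
    set F₀ := S.filter (fun k => ∀ e m, G e m k = 0) with hF₀
    set Q := S.image φ with hQ
    set F := F₀ ∪ Q.biUnion P with hF
    have hSF : S ⊆ F := by
      intro k hk
      by_cases hk' : ∀ e m, G e m k = 0
      · exact Finset.mem_union_left _ (Finset.mem_filter.2 ⟨hk, hk'⟩)
      · push Not at hk'
        refine Finset.mem_union_right _ (Finset.mem_biUnion.2 ⟨φ k, Finset.mem_image_of_mem _ hk, ?_⟩)
        rw [memP]
        exact hφ k hk'
    have hdis : Disjoint F₀ (Q.biUnion P) := by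
      rw [Finset.disjoint_left]
      intro k hk hk'
      obtain ⟨q, _, hq⟩ := Finset.mem_biUnion.1 hk'
      exact (memP q k).1 hq ((Finset.mem_filter.1 hk).2 _ _)
    have hpd : (Q : Set (Fin 2 × ℕ)).PairwiseDisjoint P := by
      intro q _ q' _ hne
      rw [Function.onFun, Finset.disjoint_left]
      intro k hk hk'
      exact hne ((hφ' q k ((memP q k).1 hk)).symm.trans (hφ' q' k ((memP q' k).1 hk')))
    have hsum : ∀ Z : K3 → ℝ, ∑ k ∈ F, Z k = ∑ k ∈ F₀, Z k + ∑ q ∈ Q, ∑ k ∈ P q, Z k := by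
      intro Z
      rw [hF, Finset.sum_union hdis, Finset.sum_biUnion hpd]
    set L : K3 → ℝ := fun k =>
      if ∃ e m, G e m k ≠ 0 then c * (Mn 8 (φ k).2 : ℝ) ^ 2 else c * len k ^ 2 with hL
    set Fk : K3 → ℝ → ℝ := fun k r => 7 * len k * cv (fun l => a l r) (fun l => a l r) k
      + if ∃ e m, G e m k ≠ 0 then |G (φ k).1 (φ k).2 k|
        * (14 * (c * (Mn 8 (φ k).2 * ((J (φ k).2 : ℝ) - 1))) * |x (φ k).1 (φ k).2 r|
          + rho c J G (fun l => a l r) (fun l => b l r) (φ k).1 (φ k).2) else 0 with hFk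
    have L1 : ∀ (q : Fin 2 × ℕ) k, G q.1 q.2 k ≠ 0 → L k = c * (Mn 8 q.2 : ℝ) ^ 2 := by
      intro q k hk
      simp only [hL]
      rw [if_pos ⟨q.1, q.2, hk⟩, hφ' q k hk]
    have L0 : ∀ k, (∀ e m, G e m k = 0) → L k = c * len k ^ 2 := by
      intro k hk
      simp only [hL]
      rw [if_neg (by push Not; exact hk)]
    have F1 : ∀ (q : Fin 2 × ℕ) k r, G q.1 q.2 k ≠ 0 →
        Fk k r = 7 * len k * cv (fun l => a l r) (fun l => a l r) k + |G q.1 q.2 k|
        * (14 * (c * (Mn 8 q.2 * ((J q.2 : ℝ) - 1))) * |x q.1 q.2 r|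
          + rho c J G (fun l => a l r) (fun l => b l r) q.1 q.2) := by
      intro q k r hk
      simp only [hFk]
      rw [if_pos ⟨q.1, q.2, hk⟩, hφ' q k hk]
    have F0 : ∀ k r, (∀ e m, G e m k = 0) →
        Fk k r = 7 * len k * cv (fun l => a l r) (fun l => a l r) k := by
      intro k r hk
      simp only [hFk]
      rw [if_neg (by push Not; exact hk), add_zero]
    have hcv : ∀ r k, 0 ≤ cv (fun l => a l r) (fun l => a l r) k := fun r k =>
      cv_nonneg (fun k => h.a0 k r) (fun k => h.a0 k r) k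
    have hL0 : ∀ k, 0 ≤ L k := by
      intro k
      by_cases hk : ∀ e m, G e m k = 0
      · rw [L0 k hk]; positivity
      · push Not at hk
        rw [L1 (φ k) k (hφ k hk)]; positivity
    have hLl : ∀ k, L k ≤ c * len k ^ 2 := by
      intro k
      by_cases hk : ∀ e m, G e m k = 0
      · rw [L0 k hk]
      · push Not at hk
        rw [L1 (φ k) k (hφ k hk)]
        have := (pk_len hP (hφ k hk)).1
        apply mul_le_mul_of_nonneg_left _ hc.le
        have := sq_nonneg (Mn 8 (φ k).2 : ℝ)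
        linarith
    set Dr : ℝ → ℝ := fun r => ∑ q ∈ Q, 1134 * Aₘ q.2
      * Real.exp (-(c * (Mn 8 q.2 : ℝ) ^ 2 * (ts - r))) with hDr
    set Dr' : ℝ → ℝ := fun r => ∑ q ∈ Q, 1134 * Aₘ q.2
      * (Real.exp (-(c * (Mn 8 q.2 : ℝ) ^ 2 * (ts - r))) * (c * (Mn 8 q.2 : ℝ) ^ 2)) with hDr'
    have h1 := zstep2 F (w := gw M₀) (lam := fun k => c * len k ^ 2) (L := L) (b := b)
      (Fk := Fk) (D := Dr) (D' := Dr') (C := 2184 * Γ ^ 2 / √c)
      hts (fun k => (gw_pos M₀ k).le) hL0 (fun k _ => hLl k) h.b0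
      (fun k => (h.bc k).mono hsub)
      (fun k _ r hr => by
        by_cases hk : ∀ e m, G e m k = 0
        · obtain ⟨B, hB1, hB2⟩ := h.bd0 k hk r (hsub' hr)
          refine ⟨B, ?_, hB2⟩
          rw [F0 k r hk]
          exact hB1
        · push Not at hk
          obtain ⟨B, hB1, hB2⟩ := h.bd1 _ _ k (hφ k hk) r (hsub' hr)
          refine ⟨B, ?_, hB2⟩
          rw [F1 (φ k) k r (hφ k hk)]
          exact hB1)
      (fun k _ r hr => by
        have e1 := len_nonneg k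
        have e2 := hcv r k
        by_cases hk : ∀ e m, G e m k = 0
        · rw [F0 k r hk]
          positivity
        · push Not at hk
          rw [F1 (φ k) k r (hφ k hk)]
          have e3 := rho_nonneg hP hc (fun k => h.a0 k r) (fun k => h.b0 k r) (φ k).1 (φ k).2
          have e4 : (0 : ℝ) ≤ (J (φ k).2 : ℝ) - 1 := by linarith [hJ1 (φ k).2]
          have e5 := Mn8 (φ k).2
          positivity)
      (by
        refine Continuous.continuousOn ?_
        simp only [hDr]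
        fun_prop)
      (fun r _ => by
        simp only [hDr, hDr']
        refine HasDerivAt.fun_sum fun q _ => ?_
        have h1 : HasDerivAt (fun r => Real.exp (-(c * (Mn 8 q.2 : ℝ) ^ 2 * (ts - r))))
            (Real.exp (-(c * (Mn 8 q.2 : ℝ) ^ 2 * (ts - r))) * (c * (Mn 8 q.2 : ℝ) ^ 2)) r := by
          have := (((hasDerivAt_id r).const_sub ts).const_mul (c * (Mn 8 q.2 : ℝ) ^ 2)).neg.exp
          refine this.congr_deriv ?_
          simp
        exact h1.const_mul _)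
      (fun r hr => by
        have hr0 : 0 < ts - r := by linarith [hr.2]
        have hrT := hsub (Ioo_subset_Icc_self hr)
        set v : K3 → ℝ := fun k => cv (fun l => a l r) (fun l => a l r) k with hv
        have hv0 : ∀ k, 0 ≤ v k := fun k => hcv r k
        obtain ⟨s1, s2⟩ := gw_cv (M := M₀) (a := fun l => a l r) (b := fun l => a l r) hM0
          (fun k => h.a0 k r) (fun k => h.a0 k r) (hs M₀ hM r hrT).1 (hs M₀ hM r hrT).1
        have hG0 : 0 ≤ GG a M₀ r := tsum_nonneg fun k => mul_nonneg (gw_pos _ k).le (h.a0 k r)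
        have s3 : GG a M₀ r * GG a M₀ r ≤ Γ ^ 2 := by
          rw [sq]; exact mul_le_mul (hΓ r hr) (hΓ r hr) hG0 (hG0.trans (hΓ r hr))
        have s4 : ∑ k ∈ F, gw M₀ k * v k ≤ 8 * Γ ^ 2 := by
          refine (s1.sum_le_tsum F fun k _ => mul_nonneg (gw_pos M₀ k).le
            (hv0 k)).trans (s2.trans ?_)
          exact mul_le_mul_of_nonneg_left s3 (by norm_num)
        have s5 : √(c * (ts - r)) = √c * √(ts - r) := Real.sqrt_mul hc.le _
        have s6 : 0 < √(ts - r) := Real.sqrt_pos.2 hr0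
        have s6' : 0 < √c * √(ts - r) := by positivity
        -- frequencies outside of the packets
        have s7 : ∑ k ∈ F₀, gw M₀ k * (Real.exp (-(L k * (ts - r)))
            * (Fk k r - (c * len k ^ 2 - L k) * b k r))
            ≤ 273 / (√c * √(ts - r)) * ∑ k ∈ F₀, gw M₀ k * v k := by
          rw [Finset.mul_sum]
          refine Finset.sum_le_sum fun k hk => ?_
          have hk' := (Finset.mem_filter.1 hk).2
          rw [F0 k r hk', L0 k hk', sub_self, zero_mul, sub_zero]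
          have e1 := len_exp_le (l := len k) hc hr0
          rw [s5] at e1
          have e2 : 0 ≤ gw M₀ k * v k := mul_nonneg (gw_pos M₀ k).le (hv0 k)
          have e3 := mul_le_mul_of_nonneg_right e1 e2
          have e4 : 0 ≤ 1 / (√c * √(ts - r)) * (gw M₀ k * v k) :=
            mul_nonneg (one_div_pos.2 s6').le e2
          calc _ = 7 * (len k * Real.exp (-(c * len k ^ 2 * (ts - r)))
                * (gw M₀ k * v k)) := by simp only [hv]; ring
            _ ≤ 7 * (1 / (√c * √(ts - r)) * (gw M₀ k * v k)) :=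
                mul_le_mul_of_nonneg_left e3 (by norm_num)
            _ ≤ 273 * (1 / (√c * √(ts - r)) * (gw M₀ k * v k)) :=
                mul_le_mul_of_nonneg_right (by norm_num) e4
            _ = _ := by ring
        -- the packets
        have s8 : ∀ q ∈ Q, ∑ k ∈ P q, gw M₀ k * (Real.exp (-(L k * (ts - r)))
            * (Fk k r - (c * len k ^ 2 - L k) * b k r))
            ≤ 273 / (√c * √(ts - r)) * ∑ k ∈ P q, gw M₀ k * v k
              + 1134 * Aₘ q.2 * (Real.exp (-(c * (Mn 8 q.2 : ℝ) ^ 2 * (ts - r)))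
                * (c * (Mn 8 q.2 : ℝ) ^ 2)) := by
          intro q _
          have hMq := Mn8 q.2
          have e0 := pkt (P := P q) (g := G q.1 q.2) (w := gw M₀) (v := v)
            (b := fun k => b k r) (c := c) (M := Mn 8 q.2) (J := J q.2) (W := 27 * 8 ^ (q.2 - n))
            (x := x q.1 q.2 r) (X := X q.2)
            (ρ := rho c J G (fun l => a l r) (fun l => b l r) q.1 q.2) hc hMq (hJ1 _) (hP.J2 _)
            (l1_sum hP q.1 q.2) (hP.sup q.1 q.2) (fun k => (gw_pos _ k).le)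
            (fun k hk l hl => gw_cmp hP hM0 ((memP q k).1 hk) ((memP q l).1 hl))
            (fun k hk => gw_pk_le hP ((memP q k).1 hk) n) (by positivity)
            (fun k hk => pk_len hP ((memP q k).1 hk)) hv0 (fun k => h.b0 k r)
            (hX q.1 q.2 r hr) (le_of_eq (rho_eq hP q.1 q.2))
          set ex := Real.exp (-(c * (Mn 8 q.2 : ℝ) ^ 2 * (ts - r))) with hex
          have hex0 : 0 < ex := Real.exp_pos _
          have e1 : ∑ k ∈ P q, gw M₀ k * (Real.exp (-(L k * (ts - r)))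
              * (Fk k r - (c * len k ^ 2 - L k) * b k r))
              = ex * ∑ k ∈ P q, gw M₀ k * (7 * len k * v k + |G q.1 q.2 k|
                * (14 * (c * (Mn 8 q.2 * ((J q.2 : ℝ) - 1))) * |x q.1 q.2 r|
                  + rho c J G (fun l => a l r) (fun l => b l r) q.1 q.2)
                - (c * len k ^ 2 - c * (Mn 8 q.2 : ℝ) ^ 2) * b k r) := by
            rw [Finset.mul_sum]
            refine Finset.sum_congr rfl fun k hk => ?_
            have hk' := (memP q k).1 hk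
            rw [F1 q k r hk', L1 q k hk']
            simp only [hex, hv]
            ring
          rw [e1]
          have e2 := mul_le_mul_of_nonneg_left e0 hex0.le
          refine e2.trans ?_
          have e3 := len_exp_le (l := (Mn 8 q.2 : ℝ)) hc hr0
          rw [s5] at e3
          have e4 : 0 ≤ ∑ k ∈ P q, gw M₀ k * v k :=
            Finset.sum_nonneg fun k _ => mul_nonneg (gw_pos M₀ k).le (hv0 k)
          have e5 : (Mn 8 q.2 : ℝ) * ex * (273 * ∑ k ∈ P q, gw M₀ k * v k)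
              ≤ 1 / (√c * √(ts - r)) * (273 * ∑ k ∈ P q, gw M₀ k * v k) :=
            mul_le_mul_of_nonneg_right e3 (by positivity)
          have e6 : 42 * (27 * 8 ^ (q.2 - n)) * (c * (Mn 8 q.2 * (J q.2 * ((J q.2 : ℝ) - 1))
              * X q.2)) = 1134 * Aₘ q.2 * (c * (Mn 8 q.2 : ℝ) ^ 2) := by
            simp only [hA]
            field_simp
            ring
          rw [e6]
          calc ex * (273 * Mn 8 q.2 * ∑ k ∈ P q, gw M₀ k * v k
                + 1134 * Aₘ q.2 * (c * (Mn 8 q.2 : ℝ) ^ 2))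
              = (Mn 8 q.2 : ℝ) * ex * (273 * ∑ k ∈ P q, gw M₀ k * v k)
                + 1134 * Aₘ q.2 * (ex * (c * (Mn 8 q.2 : ℝ) ^ 2)) := by ring
            _ ≤ 1 / (√c * √(ts - r)) * (273 * ∑ k ∈ P q, gw M₀ k * v k)
                + 1134 * Aₘ q.2 * (ex * (c * (Mn 8 q.2 : ℝ) ^ 2)) := by linarith
            _ = _ := by ring
        rw [hsum]
        have s9 := Finset.sum_le_sum s8
        rw [Finset.sum_add_distrib, ← Finset.mul_sum] at s9
        have s10 : ∑ k ∈ F₀, gw M₀ k * v k + ∑ q ∈ Q, ∑ k ∈ P q, gw M₀ k * v k ≤ 8 * Γ ^ 2 := by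
          rw [← hsum]; exact s4
        have s11 : 273 / (√c * √(ts - r)) * (∑ k ∈ F₀, gw M₀ k * v k
            + ∑ q ∈ Q, ∑ k ∈ P q, gw M₀ k * v k) ≤ 2184 * Γ ^ 2 / √c / √(ts - r) := by
          calc _ ≤ 273 / (√c * √(ts - r)) * (8 * Γ ^ 2) :=
                mul_le_mul_of_nonneg_left s10 (by positivity)
            _ = _ := by field_simp; ring
        simp only [hDr']
        linarith)
    have hnn : ∀ k, 0 ≤ gw M₀ k * b k ts := fun k => mul_nonneg (gw_pos M₀ k).le (h.b0 k ts)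
    have h2 : ∑ k ∈ F, gw M₀ k * b k tn ≤ GG b M₀ tn :=
      (hs M₀ hM tn htn).2.1.sum_le_tsum F fun k _ => mul_nonneg (gw_pos M₀ k).le (h.b0 k tn)
    have h3 : 2 * (2184 * Γ ^ 2 / √c) * √(ts - tn) = 4368 * Γ ^ 2 * √((ts - tn) / c) := by
      rw [Real.sqrt_div' _ hc.le]; ring
    have h4 : 4368 * Γ ^ 2 * √((ts - tn) / c) ≤ 10 ^ 4 * Γ ^ 2 * √((ts - tn) / c) := by
      apply mul_le_mul_of_nonneg_right _ (Real.sqrt_nonneg _)
      have := sq_nonneg Γ
      linarith
    have h5 : Dr ts - Dr tn ≤ 10 ^ 4 * ∑' m, Aₘ m := by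
      have e1 : 0 ≤ Dr tn := by
        simp only [hDr]
        exact Finset.sum_nonneg fun q _ => by have := hA0 q.2; positivity
      have e2 : Dr ts = 1134 * ∑ q ∈ Q, Aₘ q.2 := by
        simp only [hDr]
        rw [Finset.mul_sum]
        refine Finset.sum_congr rfl fun q _ => ?_
        rw [sub_self, mul_zero, neg_zero, Real.exp_zero, mul_one]
      have e3 : ∑ q ∈ Q, Aₘ q.2 ≤ 2 * ∑' m, Aₘ m := by
        calc ∑ q ∈ Q, Aₘ q.2
            ≤ ∑ q ∈ (Finset.univ : Finset (Fin 2)) ×ˢ (Q.image Prod.snd), Aₘ q.2 := by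
              refine Finset.sum_le_sum_of_subset_of_nonneg ?_ fun q _ _ => hA0 q.2
              intro q hq
              exact Finset.mem_product.2 ⟨Finset.mem_univ _, Finset.mem_image_of_mem _ hq⟩
          _ = 2 * ∑ m ∈ Q.image Prod.snd, Aₘ m := by
              rw [Finset.sum_product]
              simp
          _ ≤ 2 * ∑' m, Aₘ m := by
              apply mul_le_mul_of_nonneg_left _ (by norm_num)
              exact hsX.sum_le_tsum _ fun m _ => hA0 m
      have e4 : 0 ≤ ∑' m, Aₘ m := tsum_nonneg hA0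
      rw [e2]
      linarith
    have h6 : ∑ k ∈ S, gw M₀ k * b k ts ≤ ∑ k ∈ F, gw M₀ k * b k ts :=
      Finset.sum_le_sum_of_subset_of_nonneg hSF fun k _ _ => hnn k
    linarith
  exact Real.tsum_le_of_sum_le (fun k => mul_nonneg (gw_pos M₀ k).le (h.b0 k ts)) key

end Pool.Agent.N930.NSP
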